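import Pool.Agent.PFD.StmtsD4

/-!
Squad PFD, row FRM (helper33): the symmetric form lifts.
-/

open scoped BigOperators

noncomputable section

namespace Pool.Agent.PFD.D4.H33

open Pool.Agent.PFC.B1 (BiM FS Sep Split)
open Pool.Agent.PFD.D2
open Pool.Agent.PFD.D2b
open Pool.Agent.PFD.D4

theorem frm (rtc : RtcStmt) : FrmStmt := by
  intro R F Γ Γ0 A A1 W I N _ _ c _ _ _ _ _ _ _ _ _ _ _ _ D f fb j0 pr0 j pr s u mu
    pr_l pr_r cp un1 uc ms mp mk
  obtain ⟨r1, -, r3⟩ := rtc R Γ A1 N j pr s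
  have hz1 : ∀ a, a * s.rt 1 = s.rt 1 * a := r1 1 (fun γ => by rw [mul_one, one_mul])
  obtain ⟨z, hz⟩ := un1
  have hi1 : s.rt 1 * (↑z⁻¹ : A1) = 1 := by rw [← hz]; exact z.mul_inv
  have hi2 : (↑z⁻¹ : A1) * s.rt 1 = 1 := by rw [← hz]; exact z.inv_mul
  obtain ⟨z2, hz2⟩ : ∃ z2 : A1, z2 = ↑z⁻¹ := ⟨_, rfl⟩
  rw [← hz2] at hi1 hi2
  have hc2 : ∀ a, a * z2 = z2 * a := fun a =>
    calc a * z2 = z2 * s.rt 1 * a * z2 := by rw [hi2, one_mul]
      _ = z2 * (a * s.rt 1) * z2 := by rw [mul_assoc z2, hz1]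
      _ = z2 * a * (s.rt 1 * z2) := by simp only [mul_assoc]
      _ = z2 * a := by rw [hi1, mul_one]
  obtain ⟨la, hla⟩ : ∃ la : A1 →ₗ[R] R, ∀ a, la a = D.lam (u * pr a) :=
    ⟨D.lam ∘ₗ LinearMap.mulLeft R u ∘ₗ pr, fun a => rfl⟩
  have lj : ∀ γ a, la (j γ * a) = la (a * j γ) := fun γ a => by
    rw [hla, hla, pr_l, pr_r, ← mul_assoc, uc, mul_assoc, D.sym, mul_assoc]
  have lk : ∀ a, c.κ (la a) = mu (fb.q a) := fun a => by
    rw [hla, mk, ← cp, mp]
  refine ⟨∑ k, la ∘ₗ LinearMap.mulLeft R (s.y k * z2) ∘ₗ LinearMap.mulRight R (s.x k), ?_, ?_⟩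
  · intro a b
    have h := r3 R (LinearMap.mk₂ R (fun x y => la (y * (z2 * a * x)))
      (fun x x' y => by rw [mul_add, mul_add, map_add])
      (fun r x y => by rw [mul_smul_comm, mul_smul_comm, map_smul])
      (fun x y y' => by rw [add_mul, map_add])
      (fun r x y => by rw [smul_mul_assoc, map_smul]))
      (fun x y γ => by
        simp only [LinearMap.mk₂_apply]
        rw [mul_assoc (j γ), lj, mul_assoc y, mul_assoc (z2 * a)]) b
    simp only [LinearMap.mk₂_apply] at h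
    simp only [LinearMap.sum_apply, LinearMap.comp_apply, LinearMap.mulLeft_apply,
      LinearMap.mulRight_apply]
    calc ∑ k, la (s.y k * z2 * (a * b * s.x k))
        = ∑ k, la (s.y k * (z2 * a * (b * s.x k))) := by simp only [mul_assoc]
      _ = ∑ k, la (s.y k * b * (z2 * a * s.x k)) := h
      _ = ∑ k, la (s.y k * z2 * (b * a * s.x k)) := by
        refine Finset.sum_congr rfl fun k _ => ?_
        rw [mul_assoc z2 a, ← mul_assoc (s.y k * b) z2, mul_assoc (s.y k) b z2, hc2 b,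
          ← mul_assoc (s.y k) z2 b, mul_assoc (s.y k * z2) b, mul_assoc b a]
  · intro a
    simp only [LinearMap.sum_apply, LinearMap.comp_apply, LinearMap.mulLeft_apply,
      LinearMap.mulRight_apply]
    rw [map_sum]
    calc ∑ k, c.κ (la (s.y k * z2 * (a * s.x k)))
        = ∑ k, mu (fb.q (z2 * a * (s.x k * 1 * s.y k))) := by
          refine Finset.sum_congr rfl fun k _ => ?_
          rw [lk, mul_assoc (s.y k), map_mul, ms, ← map_mul]
          congr 2
          simp only [mul_assoc, one_mul]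
      _ = mu (fb.q (z2 * a * s.rt 1)) := by
        rw [← map_sum, ← map_sum, ← Finset.mul_sum]
        rfl
      _ = mu (fb.q a) := by
        rw [mul_assoc, hz1, ← mul_assoc, hi2, one_mul]

end Pool.Agent.PFD.D4.H33
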