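import Pool.Agent.PFD.StmtsD2c

/-!
# Squad PFD, row LCU: comparison of two symmetric forms
-/

open scoped BigOperators

noncomputable section

namespace Pool.Agent.PFD.D2b.H33

open Pool.Agent.PFC.B1 (BiM FS Sep)
open Pool.Agent.PFD.D2 Pool.Agent.PFD.D2b

section

variable {R A J : Type} [CommRing R] [Ring A] [Algebra R A] [Fintype J]

theorem fs_ext (c : FS R A J) {a a' : A} (h : ∀ x, c.lam (a * x) = c.lam (a' * x)) :
    a = a' := by
  rw [← c.h2 a, ← c.h2 a']
  exact Finset.sum_congr rfl fun i _ => by rw [h]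

/-- a symmetric form is given by a central element -/
theorem fs_form (c : FS R A J) (cs : ∀ x y, c.lam (x * y) = c.lam (y * x)) (t : A →ₗ[R] R)
    (ht : ∀ x y, t (x * y) = t (y * x)) :
    ∃ z : A, (∀ γ, z * γ = γ * z) ∧ ∀ x, t x = c.lam (z * x) := by
  have h1 : ∀ x, t x = c.lam ((∑ s, t (c.b s) • c.b' s) * x) := by
    intro x
    conv_lhs => rw [← c.h1 x]
    rw [map_sum, Finset.sum_mul, map_sum]
    refine Finset.sum_congr rfl fun s _ => ?_
    rw [map_smul, smul_mul_assoc, map_smul, smul_eq_mul, smul_eq_mul, mul_comm]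
  refine ⟨∑ s, t (c.b s) • c.b' s, fun γ => ?_, h1⟩
  refine fs_ext c fun x => ?_
  rw [mul_assoc, ← h1, mul_assoc, cs γ, mul_assoc, ← h1, ht]

end

/-- LCU -/
theorem lcu : LcuStmt := by
  intro R Γ W I _ _ _ _ _ _ D
  refine ⟨fun t ht => fs_form D.fs D.sym t ht, fun I' _ D' => ?_⟩
  obtain ⟨z, hz, hz1⟩ := fs_form D'.fs D'.sym D.lam D.sym
  obtain ⟨z', hz', hz1'⟩ := fs_form D.fs D.sym D'.lam D'.sym
  refine ⟨z, z', hz, ?_, ?_, hz', hz1⟩
  · refine fs_ext D'.fs fun x => ?_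
    rw [mul_assoc, ← hz1, one_mul]
    exact (hz1' x).symm
  · refine fs_ext D.fs fun x => ?_
    rw [mul_assoc, ← hz1', one_mul]
    exact (hz1 x).symm

end Pool.Agent.PFD.D2b.H33
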