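import Pool.Agent.PFD.StmtsD2b

/-!
# Squad PFD, rows ING and INM: the bimodule `X` is generated by `ε ω`, homomorphisms from `X`
-/

open scoped BigOperators

noncomputable section

namespace Pool.Agent.PFD.D2b.H33

open MulOpposite
open Pool.Agent.PFC.B1 (BiM FS)
open Pool.Agent.PFD.D2 Pool.Agent.PFD.D2b

section

variable {R Γ W I Ω N : Type} [CommRing R] [Ring Γ] [Algebra R Γ] [CommGroup W] [Fintype W]
  [Fintype I] [Fintype Ω] [MulAction W Ω] [AddCommGroup N] [Module R N]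

open Classical in
/-- the generators `1 ⊗ ω ⊗ 1` -/
def eps (D : WFS R Γ W I) (ω : Ω) : I × Ω → Γ := fun x =>
  ∑ w : W, if w • ω = x.2 then D.lam (D.om w⁻¹ * D.cf' x.1) • D.om w else 0

omit [Fintype Ω] in
open Classical in
theorem eps_apply (D : WFS R Γ W I) (ω : Ω) (i : I) (ω' : Ω) : eps D ω (i, ω') =
    ∑ w : W, if w • ω = ω' then D.lam (D.om w⁻¹ * D.cf' i) • D.om w else 0 := rfl

/-- the second dual family formula with a twist -/
theorem fs_twist (D : WFS R Γ W I) (x y : Γ) :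
    ∑ i, ∑ w, D.lam (D.om w⁻¹ * x * D.cf i) * D.lam (y * (D.om w * D.cf' i)) =
      D.lam (y * x) := by
  have h1 := D.h2 x
  have h2 : ∑ i, ∑ w, D.lam (x * (D.cf i * D.om w)) * D.lam (y * (D.om w⁻¹ * D.cf' i)) =
      D.lam (y * x) := by
    conv_rhs => rw [← h1]
    rw [Finset.mul_sum, map_sum]
    refine Finset.sum_congr rfl fun i _ => ?_
    rw [Finset.mul_sum, map_sum]
    refine Finset.sum_congr rfl fun w _ => ?_
    rw [mul_smul_comm, map_smul, smul_eq_mul]
  rw [← h2]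
  refine Finset.sum_congr rfl fun i _ => ?_
  rw [← Equiv.sum_comp (Equiv.inv W)]
  refine Finset.sum_congr rfl fun w _ => ?_
  rw [Equiv.inv_apply, inv_inv, mul_assoc, D.sym, mul_assoc x]

open Classical in
theorem lm_eps (D : WFS R Γ W I) {BX : BiM R Γ (I × Ω → Γ)} (hX : IsX D Ω BX) (a : Γ) (ω : Ω)
    (j : I) (ω' : Ω) : BX.lm a (eps D ω) (j, ω') =
      ∑ v : W, if v • ω = ω' then D.lam (D.om v⁻¹ * D.cf' j * a) • D.om v else 0 := by
  rw [hX.1]
  have h1 : ∀ (i : I) (w : W), D.lam (D.om w⁻¹ * D.cf' j * a * D.cf i) •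
      (D.om w * eps D ω (i, w⁻¹ • ω')) = ∑ v : W, if v • ω = ω' then
        (D.lam (D.om w⁻¹ * (D.cf' j * a) * D.cf i) *
          D.lam (D.om v⁻¹ * (D.om w * D.cf' i))) • D.om v else 0 := by
    intro i w
    rw [eps_apply, Finset.mul_sum, Finset.smul_sum, ← Equiv.sum_comp (Equiv.mulLeft w⁻¹)]
    refine Finset.sum_congr rfl fun v _ => ?_
    show _ • (_ * (if (w⁻¹ * v) • ω = w⁻¹ • ω' then
      D.lam (D.om (w⁻¹ * v)⁻¹ * D.cf' i) • D.om (w⁻¹ * v) else 0)) = _
    rw [mul_smul]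
    by_cases hv : v • ω = ω'
    · rw [if_pos (by rw [hv]), if_pos hv, mul_smul_comm, smul_smul, ← map_mul D.om w,
        mul_inv_cancel_left, mul_inv_rev, inv_inv, map_mul D.om v⁻¹, mul_assoc (D.om v⁻¹),
        mul_assoc (D.om w⁻¹) (D.cf' j) a]
    · rw [if_neg (fun h => hv (smul_left_cancel _ h)), if_neg hv, mul_zero, smul_zero]
  rw [Finset.sum_congr rfl fun i _ => Finset.sum_congr rfl fun w _ => h1 i w]
  rw [Finset.sum_congr rfl fun i _ => Finset.sum_comm, Finset.sum_comm]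
  refine Finset.sum_congr rfl fun v _ => ?_
  by_cases hv : v • ω = ω'
  · rw [if_pos hv, mul_assoc (D.om v⁻¹), ← fs_twist D (D.cf' j * a) (D.om v⁻¹),
      Finset.sum_smul]
    refine Finset.sum_congr rfl fun i _ => ?_
    rw [Finset.sum_smul]
    refine Finset.sum_congr rfl fun w _ => ?_
    rw [if_pos hv]
  · rw [if_neg hv]
    refine Finset.sum_eq_zero fun i _ => Finset.sum_eq_zero fun w _ => ?_
    rw [if_neg hv]

open Classical in
theorem lm_cf_eps (D : WFS R Γ W I) {BX : BiM R Γ (I × Ω → Γ)} (hX : IsX D Ω BX) (i : I)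
    (ω : Ω) (j : I) (ω' : Ω) : BX.lm (D.cf i) (eps D ω) (j, ω') =
      if i = j ∧ ω = ω' then 1 else 0 := by
  rw [lm_eps D hX, Finset.sum_eq_single (1 : W)]
  · rw [one_smul]
    by_cases h : ω = ω'
    · rw [if_pos h]
      by_cases hij : i = j
      · rw [if_pos ⟨hij, h⟩, hij]
        have h1 := D.d1 j 1
        rw [map_one, mul_one] at h1
        rw [h1, one_smul, map_one]
      · rw [if_neg (fun h' => hij h'.1)]
        have h1 := D.d0 j i 1 1 (Or.inl (fun h' => hij h'.symm))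
        rw [map_one, mul_one] at h1
        rw [h1, zero_smul]
    · rw [if_neg h, if_neg (fun h' => h h'.2)]
  · intro v _ hv
    have h1 := D.d0 j i v 1 (Or.inr hv)
    rw [map_one, mul_one] at h1
    rw [h1, zero_smul, ite_self]
  · intro h
    exact absurd (Finset.mem_univ _) h

/-- ING -/
theorem ing : IngStmt := by
  intro R Γ W I Ω _ _ _ _ _ _ _ _ D BX hX
  classical
  refine ⟨eps D, ?_, ?_, ?_⟩
  · intro u ω
    funext x
    obtain ⟨j, ω'⟩ := x
    rw [BX.comm, hX.2, lm_eps D hX, eps_apply, Finset.sum_mul,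
      ← Equiv.sum_comp (Equiv.mulRight u) (fun v : W => (if v • ω = ω' then
        D.lam (D.om v⁻¹ * D.cf' j * D.om u) • D.om v else 0) * D.om u⁻¹)]
    refine Finset.sum_congr rfl fun t _ => ?_
    rw [Equiv.coe_mulRight, mul_smul]
    by_cases ht : t • u • ω = ω'
    · rw [if_pos ht, if_pos ht, smul_mul_assoc, ← map_mul D.om, mul_inv_cancel_right,
        mul_inv_rev, map_mul D.om]
      congr 1
      rw [D.sym _ (D.om u), mul_assoc (D.om u⁻¹), ← mul_assoc (D.om u), ← map_mul D.om,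
        mul_inv_cancel, map_one, one_mul]
    · rw [if_neg ht, if_neg ht, zero_mul]
  · intro f
    funext x
    obtain ⟨j, ω'⟩ := x
    rw [Finset.sum_apply, Finset.sum_eq_single j]
    · rw [Finset.sum_apply, Finset.sum_eq_single ω']
      · rw [BX.comm, hX.2, lm_cf_eps D hX, if_pos ⟨rfl, rfl⟩, one_mul]
      · intro ω _ hω
        rw [BX.comm, hX.2, lm_cf_eps D hX, if_neg (fun h => hω h.2), zero_mul]
      · intro h
        exact absurd (Finset.mem_univ _) h
    · intro i _ hi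
      rw [Finset.sum_apply]
      refine Finset.sum_eq_zero fun ω _ => ?_
      rw [BX.comm, hX.2, lm_cf_eps D hX, if_neg (fun h => hi h.1), zero_mul]
    · intro h
      exact absurd (Finset.mem_univ _) h
  · intro ω x _
    refine Finset.sum_congr rfl fun w _ => ?_
    by_cases h : w • ω = x.2
    · rw [if_pos h, if_pos h]
    · rw [if_neg h, if_neg h]

/-- right multiplication of a fixed vector -/
def rmv (BN : BiM R Γ N) (n : N) : Γ →ₗ[R] N where
  toFun := fun γ => BN.rm (op γ) n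
  map_add' := fun a b => by
    rw [op_add, map_add]
    rfl
  map_smul' := fun r a => by
    rw [op_smul, map_smul]
    rfl

/-- the homomorphism given by an equivariant map -/
def gm (D : WFS R Γ W I) (BN : BiM R Γ N) (m : Ω → N) : (I × Ω → Γ) →ₗ[R] N :=
  ∑ i, ∑ ω, (BN.lm (D.cf i)) ∘ₗ (rmv BN (m ω)) ∘ₗ (LinearMap.proj (i, ω))

omit [Fintype Ω] in
theorem om_eq {D : WFS R Γ W I} {BN : BiM R Γ N} {m : Ω → N}
    (hm : EqM D.om BN m) (w : W) (ω : Ω) :
    BN.rm (op (D.om w)) (m (w • ω)) = BN.lm (D.om w) (m ω) := by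
  rw [hm, ← BN.comm, ← Module.End.mul_apply (BN.rm (op (D.om w))), ← map_mul BN.rm, ← op_mul,
    ← map_mul, inv_mul_cancel, map_one, op_one, map_one]
  rfl

omit [MulAction W Ω] in
theorem gm_apply (D : WFS R Γ W I) (BN : BiM R Γ N) (m : Ω → N) (f : I × Ω → Γ) :
    gm D BN m f = ∑ i, ∑ ω, BN.lm (D.cf i) (BN.rm (op (f (i, ω))) (m ω)) := by
  unfold gm
  rw [LinearMap.sum_apply]
  refine Finset.sum_congr rfl fun i _ => ?_
  rw [LinearMap.sum_apply]
  rfl

/-- the first dual family formula in a bimodule -/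
theorem lm_dual (D : WFS R Γ W I) (BN : BiM R Γ N) (x : Γ) (n : N) :
    ∑ j, ∑ w, D.lam (D.om w⁻¹ * D.cf' j * x) • BN.lm (D.cf j) (BN.lm (D.om w) n) =
      BN.lm x n := by
  conv_rhs => rw [← D.h1 x]
  rw [map_sum, LinearMap.sum_apply]
  refine Finset.sum_congr rfl fun j _ => ?_
  rw [map_sum, LinearMap.sum_apply]
  refine Finset.sum_congr rfl fun w _ => ?_
  rw [map_smul, map_mul BN.lm]
  rfl

/-- INM -/
theorem inm : InmStmt := by
  intro R Γ W I Ω N _ _ _ _ _ _ _ _ D BX hX _ _ BN m hm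
  classical
  refine ⟨gm D BN m, ⟨?_, ?_⟩, gm_apply D BN m, ?_⟩
  · intro γ f
    rw [gm_apply, gm_apply, map_sum]
    have h1 : ∀ (j : I) (ω' : Ω), BN.lm (D.cf j) (BN.rm (op (BX.lm γ f (j, ω'))) (m ω')) =
        ∑ i, ∑ w, D.lam (D.om w⁻¹ * D.cf' j * γ * D.cf i) •
          BN.lm (D.cf j) (BN.rm (op (f (i, w⁻¹ • ω'))) (BN.rm (op (D.om w)) (m ω'))) := by
      intro j ω'
      have h2 : BN.lm (D.cf j) (BN.rm (op (BX.lm γ f (j, ω'))) (m ω')) =
          ((BN.lm (D.cf j)) ∘ₗ (rmv BN (m ω'))) (BX.lm γ f (j, ω')) := rfl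
      rw [h2, hX.1, map_sum]
      refine Finset.sum_congr rfl fun i _ => ?_
      rw [map_sum]
      refine Finset.sum_congr rfl fun w _ => ?_
      rw [map_smul]
      congr 1
      show BN.lm (D.cf j) (BN.rm (op (D.om w * f (i, w⁻¹ • ω'))) (m ω')) = _
      rw [op_mul, map_mul]
      rfl
    rw [Finset.sum_congr rfl fun j _ => Finset.sum_congr rfl fun ω' _ => h1 j ω']
    -- order of the sums: i, ω, j, w
    have h3 : ∀ j : I, ∑ ω' : Ω, ∑ i : I, ∑ w : W, D.lam (D.om w⁻¹ * D.cf' j * γ * D.cf i) •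
          BN.lm (D.cf j) (BN.rm (op (f (i, w⁻¹ • ω'))) (BN.rm (op (D.om w)) (m ω'))) =
        ∑ i : I, ∑ ω : Ω, ∑ w : W, D.lam (D.om w⁻¹ * D.cf' j * (γ * D.cf i)) •
          BN.lm (D.cf j) (BN.lm (D.om w) (BN.rm (op (f (i, ω))) (m ω))) := by
      intro j
      rw [Finset.sum_comm]
      refine Finset.sum_congr rfl fun i _ => ?_
      rw [Finset.sum_comm]
      rw [Finset.sum_comm (f := fun (ω : Ω) (w : W) =>
        D.lam (D.om w⁻¹ * D.cf' j * (γ * D.cf i)) •
          BN.lm (D.cf j) (BN.lm (D.om w) (BN.rm (op (f (i, ω))) (m ω))))]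
      refine Finset.sum_congr rfl fun w _ => ?_
      rw [← Equiv.sum_comp (MulAction.toPerm w : Equiv.Perm Ω)]
      refine Finset.sum_congr rfl fun ω _ => ?_
      rw [MulAction.toPerm_apply, inv_smul_smul, om_eq hm, mul_assoc (D.om w⁻¹ * D.cf' j),
        ← BN.comm (D.om w)]
    rw [Finset.sum_congr rfl fun j _ => h3 j, Finset.sum_comm]
    refine Finset.sum_congr rfl fun i _ => ?_
    rw [Finset.sum_comm, map_sum]
    refine Finset.sum_congr rfl fun ω _ => ?_
    rw [lm_dual D BN (γ * D.cf i), map_mul]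
    rfl
  · intro γ f
    obtain ⟨γ, rfl⟩ := op_surjective γ
    rw [gm_apply, gm_apply, map_sum]
    refine Finset.sum_congr rfl fun i _ => ?_
    rw [map_sum]
    refine Finset.sum_congr rfl fun ω _ => ?_
    rw [hX.2, op_mul, map_mul, ← BN.comm]
    rfl
  · intro ω e _ he
    rw [gm_apply]
    have h1 : ∀ (i : I) (ω' : Ω), BN.lm (D.cf i) (BN.rm (op (e (i, ω'))) (m ω')) =
        ∑ w : W, if w • ω = ω' then D.lam (D.om w⁻¹ * D.cf' i) •
          BN.lm (D.cf i) (BN.rm (op (D.om w)) (m ω')) else 0 := by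
      intro i ω'
      have h2 : BN.lm (D.cf i) (BN.rm (op (e (i, ω'))) (m ω')) =
          ((BN.lm (D.cf i)) ∘ₗ (rmv BN (m ω'))) (e (i, ω')) := rfl
      rw [h2, he, map_sum]
      refine Finset.sum_congr rfl fun w _ => ?_
      by_cases hw : w • ω = ω'
      · rw [if_pos hw, if_pos hw, map_smul]
        rfl
      · rw [if_neg hw, if_neg hw, map_zero]
    have h3 : ∀ i : I, ∑ ω' : Ω, BN.lm (D.cf i) (BN.rm (op (e (i, ω'))) (m ω')) =
        ∑ w : W, D.lam (D.om w⁻¹ * D.cf' i * 1) • BN.lm (D.cf i) (BN.lm (D.om w) (m ω)) := by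
      intro i
      rw [Finset.sum_congr rfl fun ω' _ => h1 i ω', Finset.sum_comm]
      refine Finset.sum_congr rfl fun w _ => ?_
      rw [Finset.sum_ite_eq Finset.univ (w • ω) (fun ω' => D.lam (D.om w⁻¹ * D.cf' i) •
        BN.lm (D.cf i) (BN.rm (op (D.om w)) (m ω'))), if_pos (Finset.mem_univ _), om_eq hm,
        mul_one]
    rw [Finset.sum_congr rfl fun i _ => h3 i, lm_dual D BN 1, map_one]
    rfl

end

end Pool.Agent.PFD.D2b.H33
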