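import Pool.Agent.PFD.StmtsD5a
import Pool.Agent.Helper39_AT6.LWD
import Pool.Agent.Helper8_PFC.LPB
import Pool.Agent.Helper52_PFC.JUN

/-!
# Squad PFD, row JLX: the local algebra at `Q`, if only `C(V)` centralises `Q` in the inertial group
-/

open scoped BigOperators

noncomputable section

namespace Pool.Agent.PFD.H33

open Pool.Agent.Helper51_AWC Pool.Agent.Helper79_WRA Pool.Agent.PP Pool.Agent.PP.KF
open Pool.Agent.PP.K9 Pool.Agent.PP.K9.H97 Pool.Agent.PP.H75 Pool.Agent.PP.T3 Pool.Agent.PP.T2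
open Pool.Agent.PFC (Jd Crn jal Pj PIn Ctf ls Cz cv)

attribute [local instance] Ideal.Quotient.field

/-- the local algebra of an idempotent under a local block of inertial index one -/
theorem lpx (lno : PFC.LnoStmt) (rep : PFC.RepStmt) (nnz : PFC.NnzStmt) (pic : PFC.PicStmt)
    (ℓ : ℕ) [Fact ℓ.Prime] (M : Ideal (integralClosure ℤ ℂ)) [M.IsMaximal]
    (hM : (ℓ : integralClosure ℤ ℂ) ∈ M) (G : Type) [Group G] [Finite G] (e : G → FF M)
    (V : Subgroup G) (γ : G → FF M) (hL : Ld ℓ e V γ) (W : Subgroup G) (hWV : W ≤ V)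
    (hfr : ∀ t ∈ Tg V γ, (∀ u ∈ W, t * u = u * t) → t ∈ Subgroup.centralizer (V : Set G))
    (f : G → FF M) (hf : T6.Lw V γ W f) (j : Subgroup.centralizer (W : Set G) → FF M)
    (hjj : mulF j j = j)
    (hjv : ∀ v : Subgroup.centralizer (W : Set G), (v : G) ∈ V → ∀ x, j (v * x * v⁻¹) = j x)
    (hfj : mulF (fun t : Subgroup.centralizer (W : Set G) => f t) j = j)
    (hjg : mulF (br (V.subgroupOf (Subgroup.centralizer (W : Set G))) j)
      (fun t : Subgroup.centralizer (W : Set G) => γ t) =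
        br (V.subgroupOf (Subgroup.centralizer (W : Set G))) j)
    (hnz : ∀ κ ∈ IrrE M (fun t : Subgroup.centralizer (V : Set G) => γ t),
      ∑ᶠ t : Subgroup.centralizer (V : Set G), PP.ext0 (Subgroup.centralizer (W : Set G)) j t *
        rr M (κ t) ≠ 0) :
    ∃ n π, Pj j n π := by
  have hF : GoodF ℓ (FF M) := H50.fld ℓ Fact.out M hM
  obtain ⟨hLd, hTg⟩ := (T6.H39.lwd ℓ M hM G e V γ hL W hWV).2 f hf
  have hVX : V ≤ Subgroup.centralizer (W : Set G) := fun v hv =>
    Subgroup.mem_centralizer_iff.2 fun w hw => hL.ab w (hWV hw) v hv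
  have hCX : Subgroup.centralizer (V : Set G) ≤ Subgroup.centralizer (W : Set G) :=
    Subgroup.centralizer_le (fun w hw => hWV hw)
  have hix : ix (V.subgroupOf (Subgroup.centralizer (W : Set G)))
      (fun t : Subgroup.centralizer (W : Set G) => γ t) = 1 := by
    refine Subgroup.relIndex_eq_one.2 fun t ht => ?_
    have h1 : (t : G) ∈ Tg V γ := (hTg t).1 ht
    have h2 : ∀ u ∈ W, (t : G) * u = u * t := fun u hu =>
      (Subgroup.mem_centralizer_iff.1 t.2 u hu).symm
    exact (cent_sub hVX t).2 (hfr t h1 h2)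
  obtain ⟨fH, hfH⟩ : ∃ fH : Subgroup.centralizer (W : Set G) → FF M,
    fH = fun t : Subgroup.centralizer (W : Set G) => f t := ⟨_, rfl⟩
  rw [← hfH] at hLd hfj
  have hfI : IsIdem fH := hLd.blk.1
  have h1 := lno ℓ M hM _ fH _ _ hLd hix
  obtain ⟨N, ρ, hirr, hone, hnil, hφ⟩ := rep ℓ (FF M) hF _ fH hfI h1
  obtain ⟨χ, hχ⟩ := T8.H14.irrE_nonempty M hfI hLd.blk.2.1
  obtain ⟨z, hz⟩ := hφ _ (PFC.H8.rr_TT M hM hχ.1) (PFC.H8.actF_rr M hfI hχ)
  have h2 := nnz ℓ M hM _ fH _ _ hLd hix j hjj (fun v hv x => hjv v hv x) hjg (by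
    intro κ hκ
    obtain ⟨φ, hφe⟩ : ∃ φ, φ = T3.H85.cequiv hVX hCX := ⟨_, rfl⟩
    have hκ' : (fun t => κ (φ.symm t)) ∈ IrrE M
        (fun t : Subgroup.centralizer (V : Set G) => γ t) := by
      apply T8.H14.irrE_equiv φ.symm hL.gam.blk.1.1
      rw [hφe]
      exact hκ
    have h3 := hnz _ hκ'
    rw [← finsum_comp_equiv φ.toEquiv] at h3
    intro h4
    apply h3
    rw [← h4]
    refine finsum_congr fun t => ?_
    have h5 : ((φ.toEquiv t : Subgroup.centralizer (V : Set G)) : G) =
        ((t : Subgroup.centralizer (W : Set G)) : G) := by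
      rw [hφe]
      rfl
    have h6 : φ.symm (φ.toEquiv t) = t := φ.symm_apply_apply t
    rw [h6, h5, PP.ext0, dif_pos t.1.2]) χ hχ
  have := Fintype.ofFinite (Subgroup.centralizer (W : Set G))
  have h3 : (ev ρ j).trace ≠ 0 := by
    intro h4
    apply h2
    have h5 : ∀ h, rr M (χ h) = z * PP.tr ρ h := fun h => congrFun hz h
    have h6 : (ev ρ j).trace = ∑ h, j h * PP.tr ρ h := by
      rw [ev, finsum_eq_sum_of_fintype, Matrix.trace_sum]
      exact Finset.sum_congr rfl fun h _ => by rw [Matrix.trace_smul, smul_eq_mul, PP.tr]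
    rw [finsum_eq_sum_of_fintype]
    have h7 : ∀ h, j h * rr M (χ h) = z * (j h * PP.tr ρ h) := fun h => by rw [h5]; ring
    rw [Finset.sum_congr rfl fun h _ => h7 h, ← Finset.mul_sum, ← h6, h4, mul_zero]
  refine pic (FF M) _ N ρ hirr j hjj h3 fun a ha _ hev => hnil a ?_ hev
  rw [← ha, ← mulF_assoc, hfj]

/-- JLX -/
theorem jlx (lno : PFC.LnoStmt) (rep : PFC.RepStmt) (nnz : PFC.NnzStmt) (pic : PFC.PicStmt) :
    JlxStmt := by
  intro ℓ _ M _ hM G _ _ e V γ hL j hj W hWV hfr
  have hF : GoodF ℓ (FF M) := H50.fld ℓ Fact.out M hM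
  have hVX : V ≤ Subgroup.centralizer (W : Set G) := by
    intro x hx
    rw [Subgroup.mem_centralizer_iff]
    intro q hq
    exact hL.ab q (hWV hq) x hx
  have hCX : Subgroup.centralizer (V : Set G) ≤ Subgroup.centralizer (W : Set G) :=
    Subgroup.centralizer_le (fun x hx => hWV hx)
  obtain ⟨f, hf⟩ := (T6.H39.lwd ℓ M hM G e V γ hL W hWV).1
  have hbr : ∀ a : G → FF M, (fun t : Subgroup.centralizer (W : Set G) => br W a t) =
      fun t : Subgroup.centralizer (W : Set G) => a t := by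
    intro a
    funext t
    exact H66.br_of_mem t.2
  have hbs : ∀ (a : G → FF M) x, x ∉ Subgroup.centralizer (W : Set G) → br W a x = 0 :=
    fun a x hx => H66.br_of_not_mem hx
  have hjW : H66.Inv W j := fun p hp x => hj.iv p (hWV hp) x
  have hWp : IsPGroup ℓ W := hL.tp.pg.to_le hWV
  -- the restriction is an idempotent
  have h1 : mulF (fun t : Subgroup.centralizer (W : Set G) => j t)
      (fun t : Subgroup.centralizer (W : Set G) => j t) =
      fun t : Subgroup.centralizer (W : Set G) => j t := by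
    have h2 := mulF_res (Subgroup.centralizer (W : Set G)) (br W j) (hbs j)
    rw [← H66.br_mulF hF hWp hjW hjW, hj.id, hbr] at h2
    exact h2.symm
  -- it is under `f`
  have h3 : mulF (fun t : Subgroup.centralizer (W : Set G) => f t)
      (fun t : Subgroup.centralizer (W : Set G) => j t) =
      fun t : Subgroup.centralizer (W : Set G) => j t := by
    have h4 := mulF_res (Subgroup.centralizer (W : Set G)) f (hbs j)
    rw [hj.lb W hWV f hf, hbr] at h4
    rw [H46.mulF_comm hf.blk.blk.1.1]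
    exact h4.symm
  -- the Brauer image at `V`
  have h5 : br (V.subgroupOf (Subgroup.centralizer (W : Set G)))
      (fun t : Subgroup.centralizer (W : Set G) => j t) =
      fun t : Subgroup.centralizer (W : Set G) => br V j t := by
    funext t
    by_cases ht : (t : G) ∈ Subgroup.centralizer (V : Set G)
    · rw [H66.br_of_mem ht, H66.br_of_mem ((cent_sub hVX t).2 ht)]
    · rw [H66.br_of_not_mem ht, H66.br_of_not_mem (fun h => ht ((cent_sub hVX t).1 h))]
  have h6 : mulF (br (V.subgroupOf (Subgroup.centralizer (W : Set G)))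
      (fun t : Subgroup.centralizer (W : Set G) => j t))
      (fun t : Subgroup.centralizer (W : Set G) => γ t) =
      br (V.subgroupOf (Subgroup.centralizer (W : Set G)))
      (fun t : Subgroup.centralizer (W : Set G) => j t) := by
    rw [h5, ← mulF_res (Subgroup.centralizer (W : Set G)) γ
      (fun x hx => H66.br_of_not_mem (fun h => hx (hCX h))),
      (PFC.H52.jun ℓ M hM G e V γ hL j hj).2.2]
  refine lpx lno rep nnz pic ℓ M hM G e V γ hL W hWV hfr f hf _ h1 (fun v hv x => ?_) h3 h6 ?_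
  · exact hj.iv v hv x
  · intro κ hκ h7
    apply hj.nz κ hκ
    rw [← h7]
    apply finsum_congr
    intro t
    rw [H46.ext0_of_mem _ (hCX t.2)]

end Pool.Agent.PFD.H33
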