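import Pool.Agent.PFD.StmtsD1
import Pool.Agent.PFD.D1.Key

/-!
# Squad PFD, row LNK: the 4-gon with `v` in the first corner, as a sum over one wall
-/

open scoped BigOperators

noncomputable section

namespace Pool.Agent.PFD.H33

open Pool.Agent.PFC.B1 Pool.Agent.PFD

section

variable {R B A I J N : Type} [CommRing R] [Ring B] [Algebra R B] [Ring A] [Algebra R A]
  [Fintype I] [Fintype J] [Fintype N] (D : Net R B A I J N)

/-- the last index of the weight -/
theorem col4 (P : A) (a : B) :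
    ∑ i, D.c.lam (a * D.c.b' i) * D.T (P * D.u i) = D.T (P * D.j a) := by
  conv_rhs => rw [← D.m4b a]
  rw [map_sum, Finset.mul_sum, D.T_sum]
  refine Finset.sum_congr rfl fun i _ => ?_
  rw [map_smul, mul_smul_comm, D.T_smul]
  rfl

/-- the last two indices of the weight -/
theorem col34 (P Q : A) (w β : B) :
    ∑ i3, ∑ i4, D.c.lam (w * β * D.c.b' i3 * D.c.b' i4) * D.T (P * D.u i3 * Q * D.u i4) =
      ∑ i, D.T (P * D.u i * D.j β * Q * D.j w * D.u' i) := by
  have hF : Bil R (fun a b => D.T (P * D.j a * Q * D.j (w * b))) := by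
    refine ⟨fun a a' b => ?_, fun a b b' => ?_, fun r a b => ?_, fun r a b => ?_⟩
    · simp only [map_add, mul_add, add_mul, D.T_add]
    · simp only [map_add, mul_add, D.T_add]
    · simp only [map_smul, mul_smul_comm, smul_mul_assoc, D.T_smul, smul_eq_mul]
    · simp only [map_smul, mul_smul_comm, D.T_smul, smul_eq_mul]
  have h1 : ∀ i3, ∑ i4, D.c.lam (w * β * D.c.b' i3 * D.c.b' i4) *
      D.T (P * D.u i3 * Q * D.u i4) =
      D.T (P * D.j (D.c.b i3) * Q * D.j (w * (β * D.c.b' i3))) := by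
    intro i3
    rw [col4 D (P * D.u i3 * Q) (w * β * D.c.b' i3), mul_assoc w]
    rfl
  rw [Finset.sum_congr rfl fun i3 _ => h1 i3, ← D.m2 hF β]
  refine Finset.sum_congr rfl fun i _ => ?_
  show D.T (P * D.j (D.c.b i * β) * Q * D.j (w * D.c.b' i)) = _
  rw [map_mul, map_mul]
  simp only [mul_assoc]
  rfl

/-- the sum over the dual bases of `A` -/
theorem colp (P Q a : A) :
    ∑ p, D.T (a * D.d.b' p) * D.T (P * D.d.b p * Q) = D.T (P * a * Q) := by
  conv_rhs => rw [← D.k4b a]
  rw [Finset.mul_sum, Finset.sum_mul, D.T_sum]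
  refine Finset.sum_congr rfl fun p _ => ?_
  rw [mul_smul_comm, smul_mul_assoc, D.T_smul]

end

theorem rot4 {R I N : Type} [AddCommMonoid R] [Fintype I] [Fintype N] (G : I → N → I → I → R) :
    ∑ i, ∑ s, ∑ i1, ∑ i2, G i s i1 i2 = ∑ s, ∑ i1, ∑ i2, ∑ i, G i s i1 i2 := by
  rw [Finset.sum_comm]
  refine Finset.sum_congr rfl fun s _ => ?_
  rw [Finset.sum_comm]
  refine Finset.sum_congr rfl fun i1 _ => ?_
  rw [Finset.sum_comm]

/-- LNK -/
theorem lnk : LnkStmt := by
  intro R B A I J N _ _ _ _ _ _ _ _ D v X X'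
  have hN : ∀ (r : N) (i : I), ∑ p, D.T (X r * D.d.b p * X' r * D.u i *
      D.Ry v (D.d.b' p) * D.u' i) = ∑ s, ∑ i1, ∑ i2,
        D.T (X r * D.u i1 * D.x s * D.u i2 * X' r * D.u i * D.u' i2 * D.y s *
          D.j (v (D.c.b' i1)) * D.u' i) := by
    intro r i
    have h1 : ∀ p, D.T (X r * D.d.b p * X' r * D.u i * D.Ry v (D.d.b' p) * D.u' i) =
        ∑ s, ∑ i1, ∑ i2, D.T (D.u i1 * D.x s * D.u i2 * D.d.b' p) *
          D.T (X r * D.d.b p * (X' r * D.u i * (D.u' i2 * D.y s * D.j (v (D.c.b' i1))) *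
            D.u' i)) := by
      intro p
      unfold Net.Ry
      rw [Finset.mul_sum, Finset.sum_mul, D.T_sum]
      refine Finset.sum_congr rfl fun s _ => ?_
      rw [Finset.mul_sum, Finset.sum_mul, D.T_sum]
      refine Finset.sum_congr rfl fun i1 _ => ?_
      rw [Finset.mul_sum, Finset.sum_mul, D.T_sum]
      refine Finset.sum_congr rfl fun i2 _ => ?_
      rw [mul_smul_comm, smul_mul_assoc, D.T_smul]
      simp only [mul_assoc]
    rw [Finset.sum_congr rfl fun p _ => h1 p, Finset.sum_comm]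
    refine Finset.sum_congr rfl fun s _ => ?_
    rw [Finset.sum_comm]
    refine Finset.sum_congr rfl fun i1 _ => ?_
    rw [Finset.sum_comm]
    refine Finset.sum_congr rfl fun i2 _ => ?_
    rw [colp]
    simp only [mul_assoc]
  unfold Net.N4 Net.H4
  refine Finset.sum_congr rfl fun r _ => ?_
  rw [show (∑ i, ∑ p, D.T (X r * D.d.b p * X' r * D.u i * D.Ry v (D.d.b' p) * D.u' i)) = _ from
    Finset.sum_congr rfl fun i _ => hN r i, rot4]
  refine Finset.sum_congr rfl fun s _ => Finset.sum_congr rfl fun i1 _ =>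
    Finset.sum_congr rfl fun i2 _ => ?_
  exact col34 D (X r * D.u i1 * D.x s * D.u i2 * X' r) (D.y s) (v (D.c.b' i1))
    (D.c.b' i2)

end Pool.Agent.PFD.H33
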