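import Pool.Agent.PFD.StmtsD6b

/-!
# Squad PFD, row OMT: the orbits of `1 × V`
-/

open scoped BigOperators

noncomputable section

namespace Pool.Agent.PFD.D6.H33

open Pool.Agent.PFC Pool.Agent.PFD.D6

section

variable {V Ω : Type} [CommGroup V] [MulAction (V × V) Ω]

/-- the orbits of `1 × V` -/
def orS (V Ω : Type) [CommGroup V] [MulAction (V × V) Ω] : Setoid Ω where
  r := fun a b => ∃ h : V, b = ((1, h) : V × V) • a
  iseqv :=
    { refl := fun a => ⟨1, by
        rw [show ((1, 1) : V × V) = 1 from rfl, one_smul]⟩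
      symm := by
        rintro a b ⟨h, rfl⟩
        refine ⟨h⁻¹, ?_⟩
        rw [smul_smul, show ((1, h⁻¹) : V × V) * (1, h) = 1 by
          rw [Prod.mk_mul_mk, mul_one, inv_mul_cancel]; rfl, one_smul]
      trans := by
        rintro a b c ⟨h, rfl⟩ ⟨k, rfl⟩
        refine ⟨k * h, ?_⟩
        rw [smul_smul, Prod.mk_mul_mk, mul_one] }

/-- the action on the orbits -/
def orAct (V Ω : Type) [CommGroup V] [MulAction (V × V) Ω] :
    MulAction V (Quotient (orS V Ω)) where
  smul := fun v o => Quotient.map (sa := orS V Ω) (sb := orS V Ω)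
    (fun ω => ((v, 1) : V × V) • ω) (by
      rintro a b ⟨h, rfl⟩
      refine ⟨h, ?_⟩
      rw [smul_smul, smul_smul, Prod.mk_mul_mk, Prod.mk_mul_mk, mul_one, one_mul, mul_one,
        one_mul]) o
  one_smul := by
    intro o
    induction o using Quotient.ind
    rename_i a
    show Quotient.mk (orS V Ω) (((1, 1) : V × V) • a) = Quotient.mk (orS V Ω) a
    rw [show ((1, 1) : V × V) = 1 from rfl, one_smul]
  mul_smul := by
    intro v w o
    induction o using Quotient.ind
    rename_i a
    show Quotient.mk (orS V Ω) (((v * w, 1) : V × V) • a) =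
      Quotient.mk (orS V Ω) (((v, 1) : V × V) • ((w, 1) : V × V) • a)
    rw [smul_smul, Prod.mk_mul_mk, mul_one]

end

/-- OMT -/
theorem omt : OmtStmt := by
  intro V E Ω _ _ _ φ _ _ hst
  classical
  have hfin : Fintype (Quotient (orS V Ω)) := Fintype.ofFinite _
  have hp : ∀ (v h : V) (ω : Ω), Quotient.mk (orS V Ω) (((v, h) : V × V) • ω) =
      (orAct V Ω).smul v (Quotient.mk (orS V Ω) ω) := by
    intro v h ω
    show Quotient.mk (orS V Ω) (((v, h) : V × V) • ω) =
      Quotient.mk (orS V Ω) (((v, 1) : V × V) • ω)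
    apply Eq.symm
    apply Quotient.sound
    refine ⟨h, ?_⟩
    rw [smul_smul, Prod.mk_mul_mk, one_mul, mul_one]
  have hout : ∀ ω : Ω, ∃ h : V, ω = ((1, h) : V × V) • (Quotient.mk (orS V Ω) ω).out := by
    intro ω
    exact @Quotient.mk_out Ω (orS V Ω) ω
  refine ⟨Quotient (orS V Ω), hfin, orAct V Ω, Quotient.out, Quotient.mk (orS V Ω),
    fun o => Quotient.out_eq o, hp, hout, ?_, ?_⟩
  · intro M _ f
    rw [← Fintype.sum_prod_type (fun x : Quotient (orS V Ω) × V =>
      f (((1, x.2) : V × V) • x.1.out))]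
    apply Eq.symm
    refine Function.Bijective.sum_comp (e := fun x : Quotient (orS V Ω) × V =>
      ((1, x.2) : V × V) • x.1.out) ⟨?_, ?_⟩ f
    · rintro ⟨o, h⟩ ⟨o', h'⟩ heq
      have heq' : ((1, h) : V × V) • o.out = ((1, h') : V × V) • o'.out := heq
      have h1 : ∀ (o : Quotient (orS V Ω)) (h : V),
          Quotient.mk (orS V Ω) (((1, h) : V × V) • o.out) = o := by
        intro o h
        rw [hp, Quotient.out_eq]
        exact (orAct V Ω).one_smul o
      have h2 : o = o' := by rw [← h1 o h, heq', h1]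
      subst h2
      obtain ⟨e, R, hR⟩ := hst o.out
      have h3 : ((1, h'⁻¹ * h) : V × V) ∈ MulAction.stabilizer (V × V) o.out := by
        rw [MulAction.mem_stabilizer_iff]
        have h4 : ((1, h'⁻¹ * h) : V × V) = (1, h'⁻¹) * (1, h) := by
          rw [Prod.mk_mul_mk, mul_one]
        rw [h4, mul_smul, heq', smul_smul, Prod.mk_mul_mk, mul_one, inv_mul_cancel]
        exact one_smul (V × V) o.out
      rw [hR] at h3
      obtain ⟨r, hr, hr2⟩ := Subgroup.mem_map.1 h3
      have h5 : φ e r = 1 := congrArg Prod.fst hr2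
      have h6 : r = h'⁻¹ * h := congrArg Prod.snd hr2
      have h7 : r = 1 := (φ e).injective (by rw [h5, map_one])
      have h8 : h' = h := by
        rw [h7] at h6
        exact (inv_mul_eq_one.1 h6.symm)
      rw [h8]
    · intro ω
      obtain ⟨h, hh⟩ := hout ω
      exact ⟨(Quotient.mk (orS V Ω) ω, h), hh.symm⟩
  · intro ω e R hR hfix
    rw [Subgroup.eq_top_iff']
    intro x
    have h1 : Quotient.mk (orS V Ω) (((φ e x, 1) : V × V) • ω) = Quotient.mk (orS V Ω) ω := by
      rw [hp]
      exact hfix (φ e x)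
    obtain ⟨h, hh⟩ := @Quotient.exact Ω (orS V Ω) _ _ h1
    have h2 : ((φ e x, h) : V × V) ∈ MulAction.stabilizer (V × V) ω := by
      rw [MulAction.mem_stabilizer_iff]
      have h3 : ((φ e x, h) : V × V) = (1, h) * (φ e x, 1) := by
        rw [Prod.mk_mul_mk, mul_one, one_mul]
      rw [h3, mul_smul, ← hh]
    rw [hR] at h2
    obtain ⟨r, hr, hr2⟩ := Subgroup.mem_map.1 h2
    have h5 : φ e r = φ e x := congrArg Prod.fst hr2
    rwa [← (φ e).injective h5]

end Pool.Agent.PFD.D6.H33
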