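import Pool.Agent.PFD.StmtsD6b
import Pool.Agent.PFC.B5.CUG_49

/-!
# Squad PFD, row SPT: separability over `S`, and the units
-/

open scoped BigOperators

noncomputable section

namespace Pool.Agent.PFD.D6.H33

open Pool.Agent.PFC Pool.Agent.PFD.D6

/-- an element commutes with the inverse of a commuting element -/
theorem comm_inv {A : Type} [Ring A] {c d x : A} (h1 : c * d = 1) (h2 : d * c = 1)
    (h : c * x = x * c) : d * x = x * d := by
  calc d * x = d * x * (c * d) := by rw [h1, mul_one]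
    _ = d * (x * c) * d := by simp only [mul_assoc]
    _ = d * (c * x) * d := by rw [h]
    _ = (d * c) * x * d := by simp only [mul_assoc]
    _ = x * d := by rw [h2, one_mul]

/-- SPT -/
theorem spt : SptStmt := by
  intro hU F V A ι _ _ _ _ _ _ S g g' lam c' al m b b' α hS hCg hE hloc hone hbk hCs
  have hunl := hU H49d.bki
  have hc : ∀ u, c' * α u = α u * c' := fun u => hCg.com _ (hS u)
  have hEc : ∀ u, Ev F g g' lam 1 * α u = α u * Ev F g g' lam 1 := fun u =>
    comm_inv hCg.lin hCg.rin (hc u)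
  obtain ⟨ρ0, hρ0⟩ : ∃ ρ0, ρ0 = ∑ k : Option (Fin m), k.elim c' (fun k => al (b k)) *
    k.elim 1 b' := ⟨_, rfl⟩
  constructor
  · have hcen : ∀ a, a * ρ0 = ρ0 * a := by
      intro a
      have h1 := hCs A (LinearMap.mul F A) (fun x y s _ => by
        rw [LinearMap.mul_apply', LinearMap.mul_apply', mul_assoc]) a
      have e1 : a * ρ0 = ∑ k : Option (Fin m), (LinearMap.mul F A)
          (a * k.elim c' (fun k => al (b k))) (k.elim 1 b') := by
        rw [hρ0, Finset.mul_sum]
        exact Finset.sum_congr rfl fun k _ => (mul_assoc _ _ _).symm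
      have e2 : ρ0 * a = ∑ k : Option (Fin m), (LinearMap.mul F A)
          (k.elim c' (fun k => al (b k))) (k.elim 1 b' * a) := by
        rw [hρ0, Finset.sum_mul]
        exact Finset.sum_congr rfl fun k _ => mul_assoc _ _ _
      rw [e1, e2]
      exact h1
    have hu : IsUnit ρ0 := by
      refine hunl F V A α c' (Ev F g g' lam 1) ρ0 hloc hone hCg.lin hCg.rin hc ?_
      have h1 : ρ0 - c' = ∑ k, al (b k) * 1 * b' k := by
        rw [hρ0, Fintype.sum_option]
        simp
      rw [h1]
      exact hbk 1 fun u => by rw [one_mul, mul_one]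
    obtain ⟨U, hU0⟩ := hu
    have h1 : ρ0 * (↑U⁻¹ : A) = 1 := by rw [← hU0, Units.mul_inv]
    have h2 : (↑U⁻¹ : A) * ρ0 = 1 := by rw [← hU0, Units.inv_mul]
    have h3 : ∀ a, (↑U⁻¹ : A) * a = a * (↑U⁻¹ : A) := fun a => comm_inv h1 h2 (hcen a).symm
    refine ⟨(↑U⁻¹ : A), h3, ?_, ?_⟩
    · refine Eq.trans ?_ h1
      rw [hρ0, Finset.sum_mul]
      exact Finset.sum_congr rfl fun k _ => (mul_assoc _ _ _).symm
    · intro X _ _ T hT c
      have h4 := hCs X (T.compl₂ (LinearMap.mulRight F (↑U⁻¹ : A))) (fun x y s hs => by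
        show T (x * s) (y * (↑U⁻¹ : A)) = T x (s * y * (↑U⁻¹ : A))
        rw [hT _ _ s hs, mul_assoc]) c
      have h5 : ∀ x y, (T.compl₂ (LinearMap.mulRight F (↑U⁻¹ : A))) x y =
        T x (y * (↑U⁻¹ : A)) := fun _ _ => rfl
      rw [Finset.sum_congr rfl fun k _ => h5 _ _, Finset.sum_congr rfl fun k _ => h5 _ _] at h4
      rw [h4]
      refine Finset.sum_congr rfl fun k _ => ?_
      rw [mul_assoc, mul_assoc, h3]
  · intro w w' hw hww hww'
    have hwu : ∀ u, w * α u = α u * w := fun u => hw _ (hS u)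
    refine hunl F V A α w w' _ hloc hone hww hww' hwu ?_
    have h1 : (∑ k : Option (Fin m), k.elim c' (fun k => al (b k)) * w *
        (Ev F g g' lam 1 * k.elim 1 b')) - w =
        ∑ k, al (b k) * (w * Ev F g g' lam 1) * b' k := by
      rw [Fintype.sum_option]
      have h2 : c' * w * (Ev F g g' lam 1 * 1) = w := by
        rw [mul_one, ← hw c' hCg.mem, mul_assoc, hCg.lin, mul_one]
      show c' * w * (Ev F g g' lam 1 * 1) +
        ∑ k, al (b k) * w * (Ev F g g' lam 1 * b' k) - w = _
      rw [h2, add_sub_cancel_left]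
      refine Finset.sum_congr rfl fun k _ => ?_
      simp only [mul_assoc]
    rw [h1]
    refine hbk _ fun u => ?_
    rw [mul_assoc, hEc, ← mul_assoc, hwu, mul_assoc]

end Pool.Agent.PFD.D6.H33
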